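import Pool.Agent.helper66.LIN.Spec

set_option autoImplicit false

namespace LSH.Lin

theorem ATT (hOB : OB_stmt) (hGTF : GTF_stmt) : ATT_stmt := by
  intro u t C G hgen hC hpre hbel hpend
  obtain ⟨hO1, hO2, -, -⟩ := hOB
  obtain ⟨hroot, hends, hpp, -⟩ := hGTF
  have hr : G.root ∈ C := hpre.pts _ (hroot G)
  have hru := hC _ hr
  -- the points of the first edge above the height of `u`
  have hon : ∀ z : Pt, (Edge.mk u G.root true).on z → u.2 < z.2 → z.1 = G.root.1 ∧ z.2 ≤ G.root.2 := by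
    intro z hz hlt
    rcases hz with ⟨-, h⟩ | ⟨h, -⟩
    · rcases h with ⟨h1, -⟩ | ⟨h1, h2⟩
      · have h3 : z.2 = u.2 := h1
        exact absurd h3 hlt.ne'
      · have h4 : z.2 ∈ Set.uIcc u.2 G.root.2 := h2
        rw [Set.uIcc_of_le hru.2.le] at h4
        exact ⟨h1, h4.2⟩
    · exact absurd h (by simp)
  refine ⟨hpre.shape, hpre.pts, hpre.nodup, ?_, ?_⟩
  · refine List.pairwise_cons.2 ⟨?_, hpre.nc⟩
    intro f hf z hz1 hz2
    obtain ⟨ha, hb⟩ := hends G f hf
    have ha' := hpre.pts _ ha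
    have hb' := hpre.pts _ hb
    have h1 := (hO1 f z hz2).2
    have h2 : u.2 < z.2 := by
      have h3 : min f.a.2 f.b.2 ≤ z.2 := h1.1
      exact lt_of_lt_of_le (lt_min (hC _ ha').2 (hC _ hb').2) h3
    obtain ⟨h4, h5⟩ := hon z hz1 h2
    have h6 := hbel f hf z hz2 h4 h5
    refine ⟨Or.inr h6, ?_⟩
    exact hO2 _ f z hgen (Set.mem_insert_of_mem _ ha') (Set.mem_insert_of_mem _ hb')
      (by rw [h6]; exact Set.mem_insert_of_mem _ hr) hz2
  · intro i hi e he z hz hzi
    rcases List.mem_cons.1 he with h | h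
    · subst h
      have hi' := hC _ (hpre.pts _ (hpp G i hi))
      obtain ⟨h4, h5⟩ := hon z hz (by rw [hzi]; exact hi'.2)
      rcases hpend i hi with h6 | h6
      · rw [h4]; exact h6
      · rw [hzi] at h5
        exact absurd h6 (not_lt.2 h5)
    · exact hpre.ray i hi e h z hz hzi

end LSH.Lin
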